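import Mathlib
import Pool.Agent.helper87.PI.Defs
import Pool.Agent.helper15.PI.B2
import Pool.Agent.helper29.PI.D1
import Pool.Agent.helper46.PI.E1

set_option autoImplicit false

/-! # PI, module E2: quasi-polynomial bound for simple bipartite graphs -/

namespace Pool.Agent.helper87.PI


open Finset

section E2

variable {X Y : Type} [DecidableEq X] [DecidableEq Y]

omit [DecidableEq Y] in
theorem E2_dX_mono {E F : Finset (X × Y)} (h : E ⊆ F) (x : X) : dX E x ≤ dX F x :=
  card_le_card (filter_subset_filter _ h)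

omit [DecidableEq X] in
theorem E2_dY_mono {E F : Finset (X × Y)} (h : E ⊆ F) (y : Y) : dY E y ≤ dY F y :=
  card_le_card (filter_subset_filter _ h)

omit [DecidableEq X] in
theorem E2_dX_swap (E : Finset (X × Y)) (y : Y) :
    dX (E.map (Equiv.prodComm X Y).toEmbedding) y = dY E y := by
  unfold dX dY
  rw [filter_map, card_map]
  rfl

omit [DecidableEq Y] in
theorem E2_dY_swap (E : Finset (X × Y)) (x : X) :
    dY (E.map (Equiv.prodComm X Y).toEmbedding) x = dX E x := by
  unfold dX dY
  rw [filter_map, card_map]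
  rfl

omit [DecidableEq X] [DecidableEq Y] in
theorem E2_swap_swap (E : Finset (X × Y)) :
    (E.map (Equiv.prodComm X Y).toEmbedding).map (Equiv.prodComm Y X).toEmbedding = E := by
  ext ⟨x, y⟩
  simp

theorem E2_small [Fintype X] [Fintype Y] (E : Finset (X × Y)) (q : ℕ) (hx : ∀ x, dX E x ≤ q)
    (hy : ∀ y, dY E y ≤ q) : Good E (2 ^ q) := by
  obtain ⟨c, hc, hlt⟩ := konig q E hx hy
  refine ⟨c, hc, ?_⟩
  have h : ((univ.image (palX E c)) ∪ (univ.image (palY E c))) ⊆ (range q).powerset := by
    intro P hP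
    rw [mem_powerset]
    rcases mem_union.1 hP with h | h
    · obtain ⟨x, -, rfl⟩ := mem_image.1 h
      intro k hk
      obtain ⟨e, he, rfl⟩ := mem_image.1 hk
      exact mem_range.2 (hlt e (mem_filter.1 he).1)
    · obtain ⟨y, -, rfl⟩ := mem_image.1 h
      intro k hk
      obtain ⟨e, he, rfl⟩ := mem_image.1 hk
      exact mem_range.2 (hlt e (mem_filter.1 he).1)
  have := card_le_card h
  rwa [card_powerset, card_range] at this

end E2

theorem E2_pow4 : ∀ J : ℕ, 80 ≤ J → 100000000000 * J ^ 4 < 2 ^ J := by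
  intro J hJ
  induction J, hJ using Nat.le_induction with
  | base => norm_num
  | succ J hJ ih =>
    have h1 : (J + 1) ^ 4 ≤ 2 * J ^ 4 := by
      obtain ⟨k, rfl⟩ := Nat.exists_eq_add_of_le hJ
      ring_nf
      nlinarith [Nat.zero_le k, Nat.zero_le (k^2), Nat.zero_le (k^3), Nat.zero_le (k^4)]
    calc 100000000000 * (J + 1) ^ 4 ≤ 2 * (100000000000 * J ^ 4) := by nlinarith
      _ < 2 * 2 ^ J := by omega
      _ = 2 ^ (J + 1) := by ring

theorem E2_main (C : ℕ) (hC1 : 2 ^ 80 ≤ C) (J : ℕ) : ∀ (X Y : Type) [Fintype X] [Fintype Y]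
    [DecidableEq X] [DecidableEq Y] (E : Finset (X × Y)), (∀ x, dX E x < 2 ^ J) →
      (∀ y, dY E y < 2 ^ J) → Good E (2 ^ (C * (J + 1) ^ 9)) := by
  induction J with
  | zero =>
    intro X Y _ _ _ _ E hx hy
    refine good_mono (E2_small E 1 (fun x => ?_) (fun y => ?_)) ?_
    · have := hx x; simp at this; omega
    · have := hy y; simp at this; omega
    · refine Nat.pow_le_pow_right (by norm_num) ?_
      have : 1 ≤ C := le_trans (Nat.one_le_two_pow) hC1
      simpa using this
  | succ J ih =>
    intro X Y _ _ _ _ E hx hy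
    rcases lt_or_ge (J + 1) 80 with hJ | hJ
    · refine good_mono (E2_small E (2 ^ (J + 1)) (fun x => (hx x).le) (fun y => (hy y).le)) ?_
      refine Nat.pow_le_pow_right (by norm_num) ?_
      calc 2 ^ (J + 1) ≤ 2 ^ 80 := Nat.pow_le_pow_right (by norm_num) hJ.le
        _ ≤ C := hC1
        _ = C * 1 := (mul_one C).symm
        _ ≤ C * (J + 1 + 1) ^ 9 := Nat.mul_le_mul_left C (Nat.one_le_pow _ _ (by omega))
    · have h4 := E2_pow4 (J + 1) hJ
      set Δ := 2 ^ (J + 1) - 1 with hΔ
      have hpos : 0 < 2 ^ (J + 1) := by positivity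
      have hΔJ : Δ < 2 ^ (J + 1) := by omega
      have hbig : 100000000000 * (J + 1) ^ 4 ≤ Δ := by omega
      have hΔ0 : 0 < Δ := by
        have : 0 < 100000000000 * (J + 1) ^ 4 := by positivity
        omega
      have hpow : 2 ^ (J + 1) = 2 * 2 ^ J := by ring
      obtain ⟨F, hFE, hF, hFx⟩ := rounds E Δ (J + 1) hΔ0 hΔJ hbig
        (fun x => by have := hx x; omega) (fun y => by have := hy y; omega)
      -- the other side
      set E1 := E \ F with hE1
      have hE1E : E1 ⊆ E := sdiff_subset
      obtain ⟨F', hFE', hF', hFx'⟩ := rounds (E1.map (Equiv.prodComm X Y).toEmbedding) Δ (J + 1)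
        hΔ0 hΔJ hbig
        (fun y => by
          rw [E2_dX_swap]
          have := hy y
          have := E2_dY_mono hE1E y
          omega)
        (fun x => by
          rw [E2_dY_swap]
          have := hx x
          have := E2_dX_mono hE1E x
          omega)
      set F2 := F'.map (Equiv.prodComm Y X).toEmbedding with hF2
      have hF2s : F2.map (Equiv.prodComm X Y).toEmbedding = F' := E2_swap_swap F'
      have hF2E : F2 ⊆ E1 := by
        have := map_subset_map (f := (Equiv.prodComm Y X).toEmbedding).2 hFE'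
        rwa [E2_swap_swap] at this
      have hgF2 : Good F2 (2 ^ (100000000000 * (J + 1) ^ 5 * (2097152 * (J + 1) ^ 3))) := by
        apply good_swap
        rw [hF2s]
        exact hF'
      set E2 := E1 \ F2 with hE2
      have hE2E1 : E2 ⊆ E1 := sdiff_subset
      have hmap : (E2.map (Equiv.prodComm X Y).toEmbedding) =
          (E1.map (Equiv.prodComm X Y).toEmbedding) \ F' := by
        rw [← hF2s, hE2, Finset.map_sdiff]
      have hg2 : Good E2 (2 ^ (C * (J + 1) ^ 9)) := by
        apply ih
        · intro x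
          have h1 := hFx x
          have h2 := E2_dX_mono hE2E1 x
          omega
        · intro y
          have h1 := hFx' y
          rw [← hmap, E2_dX_swap] at h1
          omega
      have hu : E = F ∪ (F2 ∪ E2) := by
        rw [hE2, union_sdiff_of_subset hF2E, hE1, union_sdiff_of_subset hFE]
      have hg := good_union hF (good_union hgF2 hg2 (disjoint_sdiff))
        (by rw [hE2, union_sdiff_of_subset hF2E, hE1]; exact disjoint_sdiff)
      rw [hu]
      refine good_mono hg ?_
      rw [← pow_add, ← pow_add]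
      refine Nat.pow_le_pow_right (by norm_num) ?_
      have hC2 : 2 * (100000000000 * 2097152) ≤ C := le_trans (by norm_num) hC1
      have h9 : (J + 1) ^ 9 + (J + 1) ^ 8 ≤ (J + 1 + 1) ^ 9 := by
        have : ∀ n : ℕ, n ^ 9 + n ^ 8 ≤ (n + 1) ^ 9 := by
          intro n
          have h8 : n ^ 8 ≤ (n + 1) ^ 8 := Nat.pow_le_pow_left (by omega) 8
          calc n ^ 9 + n ^ 8 = (n + 1) * n ^ 8 := by ring
            _ ≤ (n + 1) * (n + 1) ^ 8 := Nat.mul_le_mul_left _ h8
            _ = (n + 1) ^ 9 := by ring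
        exact this (J + 1)
      calc 100000000000 * (J + 1) ^ 5 * (2097152 * (J + 1) ^ 3) +
          (100000000000 * (J + 1) ^ 5 * (2097152 * (J + 1) ^ 3) + C * (J + 1) ^ 9)
          = 2 * (100000000000 * 2097152) * (J + 1) ^ 8 + C * (J + 1) ^ 9 := by ring
        _ ≤ C * (J + 1) ^ 8 + C * (J + 1) ^ 9 := by
          exact Nat.add_le_add_right (Nat.mul_le_mul_right _ hC2) _
        _ = C * ((J + 1) ^ 9 + (J + 1) ^ 8) := by ring
        _ ≤ C * (J + 1 + 1) ^ 9 := Nat.mul_le_mul_left C h9

/-- pi:E2 -- quasi-polynomial bound for simple bipartite graphs -/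
theorem quasi : ∃ C : ℕ, ∀ (J : ℕ) (X Y : Type) [Fintype X] [Fintype Y] [DecidableEq X]
    [DecidableEq Y] (E : Finset (X × Y)), (∀ x, dX E x < 2 ^ J) → (∀ y, dY E y < 2 ^ J) →
      Good E (2 ^ (C * (J + 1) ^ 9)) :=
  ⟨2 ^ 80, fun J X Y _ _ _ _ E hx hy => E2_main (2 ^ 80) le_rfl J X Y E hx hy⟩

end Pool.Agent.helper87.PI
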